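import Pool.Agent.TOR.StmtsX

/-! Squad TOR, row XSM: sums of clusters times powers. -/

set_option autoImplicit false

namespace Pool.Agent.TOR.H84

open MvPolynomial

theorem thin_one (c n D : ℕ) : IsThin ℚ c n D (1 : MvPolynomial ℕ ℚ) := by
  classical
  refine ⟨?_, ?_, ?_⟩
  · rw [vars_one]
    exact Finset.empty_subset _
  · rw [totalDegree_one]
    exact Nat.zero_le _
  · have h1 : (vec '' ((1 : MvPolynomial ℕ ℚ).support : Set (ℕ →₀ ℕ))).Subsingleton := by
      rintro _ ⟨s, hs, rfl⟩ _ ⟨t, ht, rfl⟩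
      have h2 : (1 : MvPolynomial ℕ ℚ).support ⊆ {0} := by
        rw [show (1 : MvPolynomial ℕ ℚ) = monomial 0 1 from rfl]
        exact support_monomial_subset
      have h3 := Finset.mem_singleton.mp (h2 hs)
      have h4 := Finset.mem_singleton.mp (h2 ht)
      rw [h3, h4]
    rw [vectorSpan_of_subsingleton ℚ h1, finrank_bot]
    exact Nat.zero_le _

theorem clu_mul {c n s D μ : ℕ} {T : MvPolynomial ℕ ℚ} (h : IsClu ℚ c n s D T)
    (g : Fin μ → MvPolynomial ℕ ℚ) (hg : ∀ v, IsThin ℚ c n D (g v)) (e : Fin μ → ℕ) :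
    IsClu ℚ c n (s + μ) D (T * ∏ v, g v ^ e v) := by
  obtain ⟨N, M, f, e', a, b, h1, h2, h3, h4, h5, h6⟩ := h
  refine ⟨N + μ, M, Fin.append f g, Fin.append e' e, a, b, by omega, by omega, ?_, h4, h5, ?_⟩
  · intro v
    refine Fin.addCases (fun i => ?_) (fun i => ?_) v
    · rw [Fin.append_left]
      exact h3 i
    · rw [Fin.append_right]
      exact hg i
  · rw [Fin.prod_univ_add]
    simp only [Fin.append_left, Fin.append_right]
    calc T * (∏ v, g v ^ e v) * ∏ t, b t = (T * ∏ t, b t) * ∏ v, g v ^ e v := by ring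
      _ = _ := by rw [h6]; ring

theorem xsm : XsmStmt := by
  classical
  intro n μ c s D k r f hf
  constructor
  · intro I A e hI hA
    let σ := I.equivFin.symm
    refine ⟨I.card, fun j => cv n (A (σ j)) * ∏ v, cv n (f v) ^ e (σ j) v, ∑ j, X j, ?_, ?_, ?_⟩
    · intro j
      exact clu_mul (hA _ (σ j).2) (fun v => cv n (f v)) hf (e (σ j))
    · intro t _
      refine le_trans (Finset.card_le_univ t) ?_
      rw [Fintype.card_fin]
      exact hI
    · rw [map_sum, map_sum]
      simp only [aeval_X, map_mul, map_prod, map_pow]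
      rw [Equiv.sum_comp σ (fun j : I => cv n (A j) * ∏ v, cv n (f v) ^ e j v),
        ← Finset.sum_coe_sort I (fun i => cv n (A i) * ∏ v, cv n (f v) ^ e i v)]
  · intro hk hs v
    refine ⟨1, fun _ => cv n (f v), X 0, fun _ => ?_, ?_, ?_⟩
    · refine ⟨1, 1, fun _ => cv n (f v), fun _ => 1, fun _ => 1, fun _ => 1, hs, hs,
        fun _ => hf v, fun _ => thin_one c n D, fun _ => ⟨thin_one c n D, one_ne_zero⟩, ?_⟩
      simp
    · intro t _
      refine le_trans (Finset.card_le_univ t) ?_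
      rw [Fintype.card_fin]
      exact hk
    · rw [aeval_X]

end Pool.Agent.TOR.H84
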